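import Pool.Agent.Helper43.Hw.Goals2

/-!
Packet Hw H16a (numbers), fast version: the constant `C = 10 ^ 24` is a variable in the lemmas.
-/

set_option autoImplicit false

namespace Pool.Agent.Helper43.Hw.PkH16a

open Pool.Agent.Helper43.Hw

theorem exists_L (n : ℕ) (hn : 1 ≤ n) : ∃ L : ℕ, 1 ≤ L ∧
    (L : ℝ) ≤ 10 * (1 + Real.log n) ∧ 302 * Real.sqrt n + 2 < (2 : ℝ) ^ L := by
  have hn' : (1 : ℝ) ≤ n := by exact_mod_cast hn
  have hlog : 0 ≤ Real.log n := Real.log_nonneg hn'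
  refine ⟨⌊10 * (1 + Real.log n)⌋₊, ?_, Nat.floor_le (by positivity), ?_⟩
  · rw [Nat.one_le_floor_iff]
    linarith
  · have h1 : 10 * (1 + Real.log n) - 1 < (⌊10 * (1 + Real.log n)⌋₊ : ℝ) := Nat.sub_one_lt_floor _
    have h2 : (2 : ℝ) ^ (9 + 10 * Real.log n) ≤ (2 : ℝ) ^ (⌊10 * (1 + Real.log n)⌋₊ : ℝ) :=
      Real.rpow_le_rpow_of_exponent_le (by norm_num) (by linarith)
    rw [Real.rpow_natCast] at h2
    have h3 : (2 : ℝ) ^ (9 + 10 * Real.log n) = 512 * (2 : ℝ) ^ (10 * Real.log n) := by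
      rw [Real.rpow_add (by norm_num)]
      norm_num
    have h4 : (n : ℝ) ≤ (2 : ℝ) ^ (10 * Real.log n) := by
      rw [Real.rpow_def_of_pos (by norm_num)]
      have h6 : 1 ≤ Real.log 2 * 10 := by linarith [Real.log_two_gt_d9]
      have h7 : Real.log n ≤ Real.log 2 * (10 * Real.log n) := by
        calc Real.log n = 1 * Real.log n := (one_mul _).symm
          _ ≤ (Real.log 2 * 10) * Real.log n := mul_le_mul_of_nonneg_right h6 hlog
          _ = _ := by ring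
      calc (n : ℝ) = Real.exp (Real.log n) := (Real.exp_log (by linarith)).symm
        _ ≤ _ := Real.exp_le_exp.2 h7
    have h5 : Real.sqrt n ≤ n := by
      rw [Real.sqrt_le_left (by linarith)]
      calc (n : ℝ) = n * 1 := (mul_one _).symm
        _ ≤ n * n := mul_le_mul_of_nonneg_left hn' (by linarith)
        _ = _ := by ring
    rw [h3] at h2
    linarith

theorem nbig {C n m e p q : ℝ} (hC : 0 < C) (hn : 0 < n) (hq : 0 < q)
    (hpn : p * n = m ^ 2 * e ^ 3) (h1 : C * (p + q) < 3 * m ^ 2) : C * e ^ 3 < 3 * n := by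
  have h0 := mul_pos hC hq
  have h7 : C * p < 3 * m ^ 2 := by linarith [mul_add C p q]
  have h8 : C * p * n < 3 * m ^ 2 * n := mul_lt_mul_of_pos_right h7 hn
  have h9 : m ^ 2 * (C * e ^ 3) < m ^ 2 * (3 * n) := by
    calc m ^ 2 * (C * e ^ 3) = C * (m ^ 2 * e ^ 3) := by ring
      _ = C * p * n := by rw [← hpn]; ring
      _ < 3 * m ^ 2 * n := h8
      _ = m ^ 2 * (3 * n) := by ring
  exact lt_of_mul_lt_mul_left h9 (sq_nonneg m)

theorem sbig {B C n e s : ℝ} (hB : 0 < B) (hC : C = 4 * B ^ 2) (he : 1 ≤ e) (hs0 : 0 < s)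
    (hs2 : s ^ 2 = n) (h : C * e ^ 3 < 3 * n) : B * e < s := by
  have h8 : e ^ 2 ≤ e ^ 3 := pow_le_pow_right₀ he (by norm_num)
  have hB2 : 0 < B ^ 2 := by positivity
  have h9 : B ^ 2 * e ^ 2 ≤ B ^ 2 * e ^ 3 := mul_le_mul_of_nonneg_left h8 hB2.le
  have hn : 0 < n := by rw [← hs2]; positivity
  have h7 : (B * e) ^ 2 < s ^ 2 := by
    rw [hs2, mul_pow]
    rw [hC] at h
    linarith
  exact lt_of_pow_lt_pow_left₀ 2 hs0.le h7

theorem mbig {C n m q : ℝ} (hC : 0 < C) (hm : 0 < m) (hq : 0 < q)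
    (hq2 : q ^ 2 = m * n) (h1 : C * q < 3 * m ^ 2) (h2 : C ≤ 3 * n) : C < 3 * m := by
  have h8 : (C * q) ^ 2 < (3 * m ^ 2) ^ 2 :=
    pow_lt_pow_left₀ h1 (mul_pos hC hq).le (by norm_num)
  have h9 : m * (C ^ 2 * n) < m * (9 * m ^ 3) := by
    calc m * (C ^ 2 * n) = (C * q) ^ 2 := by rw [mul_pow, hq2]; ring
      _ < (3 * m ^ 2) ^ 2 := h8
      _ = m * (9 * m ^ 3) := by ring
  have h10 : C ^ 2 * n < 9 * m ^ 3 := lt_of_mul_lt_mul_left h9 hm.le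
  have h11 : C ^ 2 * C ≤ C ^ 2 * (3 * n) := mul_le_mul_of_nonneg_left h2 (sq_nonneg C)
  have h12 : C ^ 3 < (3 * m) ^ 3 := by
    calc C ^ 3 = C ^ 2 * C := by ring
      _ ≤ C ^ 2 * (3 * n) := h11
      _ = 3 * (C ^ 2 * n) := by ring
      _ < 3 * (9 * m ^ 3) := by linarith
      _ = (3 * m) ^ 3 := by ring
  exact lt_of_pow_lt_pow_left₀ 3 (by positivity) h12

theorem me_le {n m e p q : ℝ} (hp : 0 < p) (hq : 0 < q)
    (hq2 : q ^ 2 = m * n) (hpn : p * n = m ^ 2 * e ^ 3) : m * e ≤ p + q := by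
  have h7 : (m * e) ^ 3 ≤ (p + q) ^ 3 := by
    have h8 : (m * e) ^ 3 = p * q ^ 2 := by
      rw [hq2]
      calc (m * e) ^ 3 = m * (m ^ 2 * e ^ 3) := by ring
        _ = m * (p * n) := by rw [hpn]
        _ = p * (m * n) := by ring
    have h9 : 0 < p ^ 3 := by positivity
    have h10 : 0 < p ^ 2 * q := by positivity
    have h11 : 0 < p * q ^ 2 := by positivity
    have h12 : 0 < q ^ 3 := by positivity
    have h13 : (p + q) ^ 3 = p ^ 3 + 3 * (p ^ 2 * q) + 3 * (p * q ^ 2) + q ^ 3 := by ring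
    rw [h8, h13]
    linarith
  exact le_of_pow_le_pow_left₀ (by norm_num) (by positivity) h7

theorem ls_le {l R m s : ℝ} (hl0 : 0 ≤ l) (hm0 : 0 < m) (h2 : m * s ≤ 2 * R)
    (h7 : l * R ≤ 31 * m ^ 2) : l * s ≤ 62 * m := by
  have h8 : l * (m * s) ≤ l * (2 * R) := mul_le_mul_of_nonneg_left h2 hl0
  have h9 : m * (l * s) ≤ m * (62 * m) := by linarith
  exact le_of_mul_le_mul_left h9 hm0

theorem m_le {l R m s : ℝ} (hl0 : 0 ≤ l) (hm0 : 0 < m) (h3 : R ≤ 4 * m * s)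
    (h7 : 2 * m ^ 2 ≤ l * R) : m ≤ 2 * s * l := by
  have h8 : l * R ≤ l * (4 * m * s) := mul_le_mul_of_nonneg_left h3 hl0
  have h9 : (2 * m) * m ≤ (2 * m) * (2 * s * l) := by linarith
  exact le_of_mul_le_mul_left h9 (by positivity)

theorem lL_le {B l L e s m : ℝ} (hl0 : 0 ≤ l) (hB : 0 < B) (hLe : L ≤ 10 * e) (hs : B * e ≤ s)
    (hls : l * s ≤ 62 * m) : B * (l * L) ≤ 620 * m := by
  have h7 : l * L ≤ l * (10 * e) := mul_le_mul_of_nonneg_left hLe hl0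
  have h7' : B * (l * L) ≤ B * (l * (10 * e)) := mul_le_mul_of_nonneg_left h7 hB.le
  have h8 : l * (B * e) ≤ l * s := mul_le_mul_of_nonneg_left hs hl0
  linarith

theorem lW_le {l W m s : ℝ} (hW0 : 0 ≤ W) (hm0 : 0 < m) (hls : l * s ≤ 62 * m)
    (hW : W ≤ 3 * m ^ 2) : l * W * s ≤ 186 * m ^ 3 := by
  have h7 : l * s * W ≤ 62 * m * W := mul_le_mul_of_nonneg_right hls hW0
  have h8 : (62 * m) * W ≤ 62 * m * (3 * m ^ 2) :=
    mul_le_mul_of_nonneg_left hW (by positivity)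
  linarith

theorem mL_le {L e m p q : ℝ} (hm0 : 0 < m) (hLe : L ≤ 10 * e) (hme : m * e ≤ p + q) :
    m * L ≤ 10 * (p + q) := by
  have : m * L ≤ m * (10 * e) := mul_le_mul_of_nonneg_left hLe hm0.le
  linarith

theorem case1 {C n m e p q s l L W : ℝ} (hC : C = 10 ^ 24) (hn0 : 0 < n) (hl0 : 0 < l)
    (hL0 : 0 ≤ L) (hs0 : 0 ≤ s) (hp0 : 0 < p) (hq0 : 0 < q)
    (hs2 : s ^ 2 = n) (hpn : p * n = m ^ 2 * e ^ 3)
    (hls : l * s ≤ 62 * m) (hLe : L ≤ 10 * e) (hmL : m * L ≤ 10 * (p + q))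
    (h5 : C * (p + q) ≤ W) :
    400 * (1500000 * l * L) * m + 14800 * l * (1500000 * l * L) ^ 2 * L ≤ l * W := by
  have hlL2 : (l * L) ^ 2 * L * n ≤ (3844 * 1000 * p) * n := by
    have h7 : (l * s) ^ 2 ≤ (62 * m) ^ 2 := pow_le_pow_left₀ (by positivity) hls 2
    have h8 : L ^ 3 ≤ (10 * e) ^ 3 := pow_le_pow_left₀ hL0 hLe 3
    calc (l * L) ^ 2 * L * n = (l * s) ^ 2 * L ^ 3 := by rw [← hs2]; ring
      _ ≤ (62 * m) ^ 2 * (10 * e) ^ 3 := mul_le_mul h7 h8 (by positivity) (sq_nonneg _)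
      _ = 3844 * 1000 * (m ^ 2 * e ^ 3) := by ring
      _ = (3844 * 1000 * p) * n := by rw [← hpn]; ring
  have h9 : (l * L) ^ 2 * L ≤ 3844 * 1000 * p := le_of_mul_le_mul_right hlL2 hn0
  have h11 : 6 * 10 ^ 8 * (m * L) + 33300000000000000 * ((l * L) ^ 2 * L) ≤ W := by
    have h12 : 6 * 10 ^ 8 * (m * L) + 33300000000000000 * ((l * L) ^ 2 * L) ≤
        6 * 10 ^ 8 * (10 * (p + q)) + 33300000000000000 * (3844 * 1000 * p) :=
      add_le_add (mul_le_mul_of_nonneg_left hmL (by norm_num))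
        (mul_le_mul_of_nonneg_left h9 (by norm_num))
    refine h12.trans (le_trans ?_ h5)
    rw [hC]
    norm_num
    linarith
  calc 400 * (1500000 * l * L) * m + 14800 * l * (1500000 * l * L) ^ 2 * L =
      l * (6 * 10 ^ 8 * (m * L) + 33300000000000000 * ((l * L) ^ 2 * L)) := by ring
    _ ≤ l * W := mul_le_mul_of_nonneg_left h11 hl0.le

theorem case2 {C m p q s t l L W : ℝ} (hC : C = 10 ^ 24) (hl0 : 0 < l) (ht0 : 0 < t)
    (hp0 : 0 < p) (hq0 : 0 < q) (h7 : t * (2 * s) = 2 * q) (ht2 : t ^ 2 = m)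
    (hml : m ≤ 2 * s * l) (hmL : m * L ≤ 10 * (p + q)) (h5 : C * (p + q) ≤ W) :
    400 * (247 * t) * m + 14800 * l * (247 * t) ^ 2 * L ≤ l * W := by
  have h9 : t * m ≤ l * (2 * q) := by
    calc t * m ≤ t * (2 * s * l) := mul_le_mul_of_nonneg_left hml ht0.le
      _ = (t * (2 * s)) * l := by ring
      _ = l * (2 * q) := by rw [h7]; ring
  have h11 : 197600 * q + 902933200 * (m * L) ≤ W := by
    have h12 : 197600 * q + 902933200 * (m * L) ≤ 197600 * q + 902933200 * (10 * (p + q)) := by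
      linarith
    refine h12.trans (le_trans ?_ h5)
    rw [hC]
    norm_num
    linarith
  calc 400 * (247 * t) * m + 14800 * l * (247 * t) ^ 2 * L =
      98800 * (t * m) + l * (902933200 * ((t ^ 2) * L)) := by ring
    _ = 98800 * (t * m) + l * (902933200 * (m * L)) := by rw [ht2]
    _ ≤ 98800 * (l * (2 * q)) + l * (902933200 * (m * L)) := by linarith
    _ = l * (197600 * q + 902933200 * (m * L)) := by ring
    _ ≤ l * W := mul_le_mul_of_nonneg_left h11 hl0.le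

theorem case3 {a m l L W : ℝ} (ha : 0 ≤ a) (hm : 0 ≤ m) (hl : 0 ≤ l) (hL : 0 ≤ L)
    (h7 : 61009 * m ≤ a ^ 2) (h8 : a ^ 3 = 48 * l * W) (h1 : 1500000 * l * L ≤ a) :
    400 * a * m + 14800 * l * a ^ 2 * L ≤ l * W := by
  have h9 : a * (61009 * m) ≤ a * a ^ 2 := mul_le_mul_of_nonneg_left h7 ha
  have h11 : 0 ≤ a * m := mul_nonneg ha hm
  have h10 : a ^ 2 * (1500000 * l * L) ≤ a ^ 2 * a := mul_le_mul_of_nonneg_left h1 (sq_nonneg a)
  have h12 : 0 ≤ a ^ 2 * (l * L) := mul_nonneg (sq_nonneg a) (mul_nonneg hl hL)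
  have h13 : a * a ^ 2 = a ^ 3 := by ring
  have h14 : a ^ 2 * a = a ^ 3 := by ring
  rw [h13] at h9
  rw [h14] at h10
  have h15 : 400 * a * m + 14800 * l * a ^ 2 * L = 400 * (a * m) + 14800 * (a ^ 2 * (l * L)) := by
    ring
  have h16 : a * (61009 * m) = 61009 * (a * m) := by ring
  have h17 : a ^ 2 * (1500000 * l * L) = 1500000 * (a ^ 2 * (l * L)) := by ring
  rw [h16] at h9
  rw [h17] at h10
  rw [h15]
  linarith

theorem x1_lt {B l L m : ℝ} (hm : 0 < m) (hB : B = 5 * 10 ^ 11) (h : B * (l * L) ≤ 620 * m) :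
    4 * (1500000 * l * L) < m := by
  rw [hB] at h
  have h1 : 4 * (1500000 * l * L) = 6000000 * (l * L) := by ring
  rw [h1]
  norm_num at h
  linarith

theorem x3_lt {B x l W s m : ℝ} (hm : 0 < m) (hs : 0 < s) (hB : B = 5 * 10 ^ 11) (hx : x ^ 3 = 48 * l * W)
    (hlW : l * W * s ≤ 186 * m ^ 3) (hBs : B ≤ s) : 4 * x < m := by
  have hm3 : 0 < m ^ 3 := by positivity
  have h8 : s * (4 ^ 3 * (48 * l * W)) < s * m ^ 3 := by
    calc s * (4 ^ 3 * (48 * l * W)) = 3072 * (l * W * s) := by ring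
      _ ≤ 3072 * (186 * m ^ 3) := mul_le_mul_of_nonneg_left hlW (by norm_num)
      _ < B * m ^ 3 := by
        rw [hB]
        norm_num
        linarith
      _ ≤ s * m ^ 3 := mul_le_mul_of_nonneg_right hBs hm3.le
  have h9 : 4 ^ 3 * (48 * l * W) < m ^ 3 := lt_of_mul_lt_mul_left h8 hs.le
  have h7 : (4 * x) ^ 3 < m ^ 3 := by
    rw [mul_pow, hx]
    exact h9
  exact lt_of_pow_lt_pow_left₀ 3 hm.le h7

theorem x2_lt {t m : ℝ} (ht0 : 0 < t) (ht2 : t ^ 2 = m) (hm : 1000000 < m) : 4 * (247 * t) < m := by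
  have h7 : 988 < t := by
    have h8 : (988 : ℝ) ^ 2 < t ^ 2 := by
      rw [ht2]
      norm_num
      linarith
    exact lt_of_pow_lt_pow_left₀ 2 ht0.le h8
  calc 4 * (247 * t) = 988 * t := by ring
    _ < t * t := mul_lt_mul_of_pos_right h7 ht0
    _ = m := by rw [← ht2]; ring

/-- the choice of `a` -/
theorem exists_a {C B n m e p q s l L W : ℝ} (hC : C = 10 ^ 24) (hB : B = 5 * 10 ^ 11)
    (hn0 : 0 < n) (hm0 : 0 < m) (hm1 : 1000000 < m) (hl1 : 1 ≤ l) (hL1 : 1 ≤ L) (hs0 : 0 < s)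
    (hW0 : 0 ≤ W)
    (hp0 : 0 < p) (hq0 : 0 < q) (hs2 : s ^ 2 = n) (hq2 : q ^ 2 = m * n)
    (hpn : p * n = m ^ 2 * e ^ 3)
    (hls : l * s ≤ 62 * m) (hml : m ≤ 2 * s * l) (hLe : L ≤ 10 * e) (hme : m * e ≤ p + q)
    (hlL : B * (l * L) ≤ 620 * m) (hlW : l * W * s ≤ 186 * m ^ 3) (hBs : B ≤ s)
    (h5 : C * (p + q) ≤ W) :
    ∃ a : ℝ, 1 ≤ a ∧ 1500000 * l * L ≤ a ∧ 61009 * m ≤ a ^ 2 ∧ 48 * l * W ≤ a ^ 3 ∧ 4 * a < m ∧
      400 * a * m + 14800 * l * a ^ 2 * L ≤ l * W := by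
  have hl0 : 0 < l := by linarith
  have hL0 : 0 < L := by linarith
  have hmL := mL_le hm0 hLe hme
  obtain ⟨t, ht⟩ : ∃ t : ℝ, t = Real.sqrt m := ⟨_, rfl⟩
  have ht2 : t ^ 2 = m := by rw [ht]; exact Real.sq_sqrt hm0.le
  have ht0 : 0 < t := by rw [ht]; exact Real.sqrt_pos.2 hm0
  obtain ⟨x₃, hx₃⟩ : ∃ x : ℝ, x = (48 * l * W : ℝ) ^ ((1 : ℝ) / 3) := ⟨_, rfl⟩
  have hlW0 : 0 ≤ 48 * l * W := by positivity
  have hx₃0 : 0 ≤ x₃ := by rw [hx₃]; positivity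
  have hx₃3 : x₃ ^ 3 = 48 * l * W := by
    rw [hx₃, ← Real.rpow_natCast, ← Real.rpow_mul hlW0]
    norm_num
  have hlL1 : 1 ≤ l * L := one_le_mul_of_one_le_of_one_le hl1 hL1
  have hx₁1 : 1 ≤ 1500000 * l * L := by
    have h : 1500000 * l * L = 1500000 * (l * L) := by ring
    rw [h]
    linarith
  have hts : t * (2 * s) = 2 * q := by
    have h1 : (t * s) ^ 2 = q ^ 2 := by rw [mul_pow, ht2, hs2, hq2]
    have h2 : t * s = q := by
      exact (pow_left_inj₀ (mul_pos ht0 hs0).le hq0.le (by norm_num)).1 h1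
    calc t * (2 * s) = 2 * (t * s) := by ring
      _ = 2 * q := by rw [h2]
  obtain ⟨x₁, hx₁⟩ : ∃ x : ℝ, x = 1500000 * l * L := ⟨_, rfl⟩
  obtain ⟨x₂, hx₂⟩ : ∃ x : ℝ, x = 247 * t := ⟨_, rfl⟩
  have h4x₁ : 4 * x₁ < m := by rw [hx₁]; exact x1_lt hm0 hB hlL
  have h4x₂ : 4 * x₂ < m := by rw [hx₂]; exact x2_lt ht0 ht2 hm1
  have h4x₃ : 4 * x₃ < m := x3_lt hm0 hs0 hB hx₃3 hlW hBs
  have hx₂2 : x₂ ^ 2 = 61009 * m := by rw [hx₂, mul_pow, ht2]; norm_num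
  have hx₂0 : 0 < x₂ := by rw [hx₂]; positivity
  refine ⟨max x₁ (max x₂ x₃), ?_, ?_, ?_, ?_, ?_, ?_⟩
  · rw [← hx₁] at hx₁1
    exact hx₁1.trans (le_max_left _ _)
  · rw [← hx₁]
    exact le_max_left _ _
  · rw [← hx₂2]
    exact pow_le_pow_left₀ hx₂0.le ((le_max_left _ _).trans (le_max_right _ _)) 2
  · rw [← hx₃3]
    exact pow_le_pow_left₀ hx₃0 ((le_max_right _ _).trans (le_max_right _ _)) 3
  · rcases max_choice x₁ (max x₂ x₃) with h | h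
    · rw [h]; exact h4x₁
    · rw [h]
      rcases max_choice x₂ x₃ with h' | h'
      · rw [h']; exact h4x₂
      · rw [h']; exact h4x₃
  · rcases max_choice x₁ (max x₂ x₃) with h | h
    · rw [h, hx₁]
      exact case1 hC hn0 hl0 hL0.le hs0.le hp0 hq0 hs2 hpn hls hLe hmL h5
    · rcases max_choice x₂ x₃ with h' | h'
      · rw [h, h', hx₂]
        exact case2 hC hl0 ht0 hp0 hq0 hts ht2 hml hmL h5
      · have h2 : x₂ ≤ x₃ := by rw [← h']; exact le_max_left _ _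
        have h1 : x₁ ≤ x₃ := by
          have : x₁ ≤ max x₂ x₃ := by rw [← h]; exact le_max_left _ _
          rwa [h'] at this
        rw [h, h']
        refine case3 hx₃0 hm0.le hl0.le hL0.le ?_ hx₃3 ?_
        · rw [← hx₂2]
          exact pow_le_pow_left₀ hx₂0.le h2 2
        · rw [← hx₁]
          exact h1

theorem exists_l (m R : ℕ) (hR0 : 0 < R) (hR : R ≤ 29 * m ^ 2) : ∃ l : ℕ, 1 ≤ l ∧
    2 * m ^ 2 ≤ l * R ∧ l * R ≤ 31 * m ^ 2 := by
  refine ⟨2 * m ^ 2 / R + 1, Nat.le_add_left _ _, ?_, ?_⟩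
  · have := Nat.lt_div_mul_add (a := 2 * m ^ 2) hR0
    rw [add_mul, one_mul]
    exact this.le
  · have h : (2 * m ^ 2 / R + 1) * R ≤ 2 * m ^ 2 + R := by
      rw [add_mul, one_mul]
      exact Nat.add_le_add_right (Nat.div_mul_le_self _ _) _
    exact h.trans (by omega)

theorem last_le {a w m l L W : ℝ} (ha : 0 ≤ a) (hw : 0 ≤ w) (hm : 0 ≤ m) (hl : 0 ≤ l) (hL : 0 ≤ L)
    (hwa : w ≤ 2 * a) (h : 400 * a * m + 14800 * l * a ^ 2 * L ≤ l * W) :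
    w * (200 * m + 3700 * l * w * L) ≤ l * W := by
  have h0 : 0 ≤ 3700 * l := by positivity
  have h8 : 3700 * l * w * L ≤ 3700 * l * (2 * a) * L :=
    mul_le_mul_of_nonneg_right (mul_le_mul_of_nonneg_left hwa h0) hL
  calc w * (200 * m + 3700 * l * w * L) ≤ (2 * a) * (200 * m + 3700 * l * (2 * a) * L) :=
        mul_le_mul hwa (by linarith) (by positivity) (by linarith)
    _ = 400 * a * m + 14800 * l * a ^ 2 * L := by ring
    _ ≤ l * W := h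

theorem goalH16a : GoalH16a := by
  obtain ⟨C, hC⟩ : ∃ C : ℝ, C = 10 ^ 24 := ⟨_, rfl⟩
  obtain ⟨B, hB⟩ : ∃ B : ℝ, B = 5 * 10 ^ 11 := ⟨_, rfl⟩
  have hCB : C = 4 * B ^ 2 := by rw [hC, hB]; norm_num
  have hC0 : 0 < C := by rw [hC]; norm_num
  have hB0 : 0 < B := by rw [hB]; norm_num
  have hC1 : 3000000 < C := by rw [hC]; norm_num
  have hB1 : 10000 < B := by rw [hB]; norm_num
  refine ⟨C, by linarith, ?_⟩
  intro n m R W hn hm h1 h2 h3 h4 h5 h6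
  have hn' : (1 : ℝ) ≤ n := by exact_mod_cast hn
  have hm' : (1 : ℝ) ≤ m := by exact_mod_cast hm
  have hn0 : (0 : ℝ) < n := by linarith
  have hm0 : (0 : ℝ) < m := by linarith
  obtain ⟨L, hL1, hL2, hL3⟩ := exists_L n hn
  obtain ⟨e, he⟩ : ∃ e : ℝ, e = 1 + Real.log n := ⟨_, rfl⟩
  have he1 : 1 ≤ e := by
    have := Real.log_nonneg hn'
    linarith
  obtain ⟨s, hs⟩ : ∃ s : ℝ, s = Real.sqrt n := ⟨_, rfl⟩
  have hs2 : s ^ 2 = n := by rw [hs]; exact Real.sq_sqrt hn0.le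
  have hs0 : 0 < s := by rw [hs]; exact Real.sqrt_pos.2 hn0
  obtain ⟨p, hp⟩ : ∃ p : ℝ, p = (m : ℝ) ^ 2 / n * e ^ 3 := ⟨_, rfl⟩
  obtain ⟨q, hq⟩ : ∃ q : ℝ, q = Real.sqrt (m * n) := ⟨_, rfl⟩
  have hwin : win n m = p + q := by rw [hp, hq, he]; rfl
  have hp0 : 0 < p := by rw [hp]; positivity
  have hq0 : 0 < q := by rw [hq]; exact Real.sqrt_pos.2 (by positivity)
  have hq2 : q ^ 2 = m * n := by rw [hq]; exact Real.sq_sqrt (by positivity)
  have hpn : p * n = m ^ 2 * e ^ 3 := by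
    rw [hp]
    field_simp
  rw [hwin] at h1 h5
  rw [← hs] at h2 h3 hL3
  rw [← he] at hL2
  have hnbig : C * e ^ 3 < 3 * n := nbig hC0 hn0 hq0 hpn h1
  have hsbig : B * e < s := sbig hB0 hCB he1 hs0 hs2 hnbig
  have hBs : B ≤ s := by
    have : B * 1 ≤ B * e := mul_le_mul_of_nonneg_left he1 hB0.le
    linarith
  have hCn : C ≤ 3 * (n : ℝ) := by
    have h7 : (1 : ℝ) ≤ e ^ 3 := one_le_pow₀ he1
    have : C * 1 ≤ C * e ^ 3 := mul_le_mul_of_nonneg_left h7 hC0.le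
    linarith
  have hmbig : C < 3 * (m : ℝ) := by
    refine mbig hC0 hm0 hq0 hq2 ?_ hCn
    have := mul_pos hC0 hp0
    have h9 : C * (p + q) = C * p + C * q := by ring
    rw [h9] at h1
    linarith
  have hm1 : (1000000 : ℝ) < m := by linarith
  have hR0 : 0 < R := by
    rcases Nat.eq_zero_or_pos R with h | h
    · exfalso
      rw [h] at h2
      have h7 : 0 < (m : ℝ) * s := mul_pos hm0 hs0
      have h8 : (2 : ℝ) * ((0 : ℕ) : ℝ) = 0 := by norm_num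
      rw [h8] at h2
      linarith
    · exact h
  obtain ⟨l, hl1, hl2, hl3⟩ := exists_l m R hR0 h4
  have hl1' : (1 : ℝ) ≤ l := by exact_mod_cast hl1
  have hl0 : (0 : ℝ) < l := by linarith
  have hL1' : (1 : ℝ) ≤ L := by exact_mod_cast hL1
  have hl2' : 2 * (m : ℝ) ^ 2 ≤ l * R := by exact_mod_cast hl2
  have hl3' : (l : ℝ) * R ≤ 31 * (m : ℝ) ^ 2 := by exact_mod_cast hl3
  have hls := ls_le hl0.le hm0 h2 hl3'
  have hml := m_le hl0.le hm0 h3 hl2'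
  have hme := me_le hp0 hq0 hq2 hpn
  have hlL := lL_le hl0.le hB0 hL2 hsbig.le hls
  have hW0 : (0 : ℝ) ≤ W := Nat.cast_nonneg _
  have hW : (W : ℝ) ≤ 3 * (m : ℝ) ^ 2 := by exact_mod_cast h6
  have hlW := lW_le hW0 hm0 hls hW
  obtain ⟨a, ha0, ha1, ha2, ha3, h4a, hQ⟩ := exists_a hC hB hn0 hm0 hm1 hl1' hL1' hs0 hW0 hp0 hq0
    hs2 hq2 hpn hls hml hL2 hme hlL hlW hBs h5
  clear hnbig hsbig hCn hmbig hpn hq2 hp hq hwin h1 h5
  obtain ⟨w, hw⟩ : ∃ w : ℕ, w = ⌈a⌉₊ := ⟨_, rfl⟩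
  have hwa : a ≤ w := by rw [hw]; exact Nat.le_ceil a
  have hw2 : (w : ℝ) ≤ 2 * a := by
    have := Nat.ceil_lt_add_one (a := a) (by linarith)
    rw [hw]
    linarith
  have hw0 : (0 : ℝ) < w := by linarith
  refine ⟨l, L, w, hl1, hl2, ?_, ?_, ?_, ?_, ?_, ?_, ?_, ?_⟩
  · exact hl3.trans (Nat.mul_le_mul_right _ (by norm_num))
  · have h7 : (100 * m : ℝ) ≤ R := by
      have h8 : (m : ℝ) * 10000 ≤ m * s := mul_le_mul_of_nonneg_left (by linarith) hm0.le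
      linarith
    exact_mod_cast h7
  · have h7 : (151 * m + 2 * l : ℝ) < 2 ^ L * l := by
      have h8 : (302 * s + 2) * l < (2 : ℝ) ^ L * l := mul_lt_mul_of_pos_right hL3 hl0
      linarith
    exact_mod_cast h7
  · have h7 : (1500000 * l * L : ℝ) ≤ w := ha1.trans hwa
    exact_mod_cast h7
  · have h7 : (61000 * m : ℝ) ≤ (w : ℝ) ^ 2 := by
      have h8 : a ^ 2 ≤ (w : ℝ) ^ 2 := pow_le_pow_left₀ (by linarith) hwa 2
      linarith
    exact_mod_cast h7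
  · have h7 : (2 * w : ℝ) < m := by linarith
    exact_mod_cast h7
  · have h7 : (48 * l * W : ℝ) ≤ (w : ℝ) ^ 3 :=
      ha3.trans (pow_le_pow_left₀ (by linarith) hwa 3)
    exact_mod_cast h7
  · have h7 : (w * (200 * m + 3700 * l * w * L) : ℝ) ≤ l * W :=
      last_le (by linarith) hw0.le hm0.le hl0.le (by linarith) hw2 hQ
    exact_mod_cast h7

end Pool.Agent.Helper43.Hw.PkH16a
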